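import Pool.Agent.Helper11.PC.Defs
import Pool.Agent.Helper28.Para.Embed

/-! # Project PC, packet MAGG: Magnus coefficients on parafree groups -/

namespace Pool.Agent.Helper34.PC

universe u v

open Pool.Agent.Helper28.Para Pool.Agent.Helper11.PC

theorem magg {X : Type v} {G : Type u} [Group G] (hG : IsParafreeOn X G) (hX : MagF X) :
    ∃ c : G → List X → ℚ, MagnusSys X (fun _ => True) G c ∧
      (∀ g v, ∃ z : ℤ, c g v = z) ∧
      (∀ g n, ∃ X0 : Finset X, ∀ v, v.length ≤ n → c g v ≠ 0 → ∀ x ∈ v, x ∈ X0) ∧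
      (∀ n g h, g⁻¹ * h ∈ lcs G n ↔ ∀ v, v.length ≤ n → c g v = c h v) := by
  obtain ⟨cF, h1, hmul, hint, hfin, hlcs⟩ := hX
  obtain ⟨s, ha, hb⟩ := exists_good_hom hG
  -- fact 1
  have F1 : ∀ (n : ℕ) (x k : FreeGroup X), k ∈ lcs (FreeGroup X) n → ∀ v : List X,
      v.length ≤ n → cF (x * k) v = cF x v := by
    intro n x k hk v hv
    rw [hmul, Finset.sum_range_succ, List.take_length, List.drop_length, h1, mul_one,
      Finset.sum_eq_zero, zero_add]
    intro i hi
    have hi' := Finset.mem_range.mp hi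
    have h0 : cF k (v.drop i) = 0 := by
      refine (hlcs n k).1 hk _ ?_ ?_
      · intro h
        have := congrArg List.length h
        rw [List.length_drop, List.length_nil] at this
        omega
      · rw [List.length_drop]; omega
    rw [h0, mul_zero]
  -- fact 2
  have F2 : ∀ (n : ℕ) (x y : FreeGroup X), (∀ v : List X, v.length ≤ n → cF x v = cF y v) →
      x⁻¹ * y ∈ lcs (FreeGroup X) n := by
    intro n x y hxy
    rw [hlcs]
    intro v hv hn
    have e1 : cF (x⁻¹ * y) v = cF (x⁻¹ * x) v := by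
      rw [hmul, hmul]
      refine Finset.sum_congr rfl fun i _ => ?_
      rw [hxy (v.drop i) (by rw [List.length_drop]; omega)]
    rw [e1, inv_mul_cancel]
    exact (hlcs n 1).1 (one_mem _) v hv hn
  have hs : ∀ (n : ℕ) (x : FreeGroup X), x ∈ lcs (FreeGroup X) n → s x ∈ lcs G n :=
    fun n x hx => map_lcs_le s n hx
  have hconj : ∀ (n : ℕ) (k h : G), k ∈ lcs G n → h⁻¹ * k * h ∈ lcs G n := by
    intro n k h hk
    have := (inferInstance : (lcs G n).Normal).conj_mem k hk h⁻¹
    rwa [inv_inv] at this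
  choose w hw using fun (n : ℕ) (g : G) => hb n g
  have key : ∀ (n : ℕ) (g : G) (x : FreeGroup X) (v : List X), v.length ≤ n →
      (s x)⁻¹ * g ∈ lcs G n → cF (w v.length g) v = cF x v := by
    intro n g x v hv hx
    have hx' : (s x)⁻¹ * g ∈ lcs G v.length := lcs_anti hv hx
    have hy := hw v.length g
    set y := w v.length g
    have h2 : s (x⁻¹ * y) ∈ lcs G v.length := by
      have : s (x⁻¹ * y) = ((s x)⁻¹ * g) * ((s y)⁻¹ * g)⁻¹ := by
        rw [map_mul, map_inv]; group
      rw [this]
      exact mul_mem hx' (inv_mem hy)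
    have h3 := F1 v.length x (x⁻¹ * y) (ha _ _ h2) v le_rfl
    rwa [mul_inv_cancel_left] at h3
  have last : ∀ n (g h : G), g⁻¹ * h ∈ lcs G n ↔
      ∀ v : List X, v.length ≤ n → cF (w v.length g) v = cF (w v.length h) v := by
    intro n g h
    have hx := hw n g
    have hy := hw n h
    constructor
    · intro hgh v hv
      rw [key n g (w n g) v hv hx, key n h (w n g) v hv]
      have : (s (w n g))⁻¹ * h = ((s (w n g))⁻¹ * g) * (g⁻¹ * h) := by group
      rw [this]
      exact mul_mem hx hgh
    · intro hv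
      have h2 : (w n g)⁻¹ * w n h ∈ lcs (FreeGroup X) n := by
        refine F2 n _ _ fun v hvn => ?_
        rw [← key n g (w n g) v hvn hx, ← key n h (w n h) v hvn hy]
        exact hv v hvn
      have h3 := hs n _ h2
      have : g⁻¹ * h = ((s (w n g))⁻¹ * g)⁻¹ * s ((w n g)⁻¹ * w n h) *
          ((s (w n h))⁻¹ * h) := by
        rw [map_mul, map_inv]; group
      rw [this]
      exact mul_mem (mul_mem (inv_mem hx) h3) hy
  refine ⟨fun g v => cF (w v.length g) v, ⟨fun _ _ _ h => h, trivial, fun g => h1 _, ?_, ?_⟩,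
    fun g v => hint _ _, ?_, last⟩
  · intro g h v _
    have hx := hw v.length g
    have hy := hw v.length h
    have hxy : (s (w v.length g * w v.length h))⁻¹ * (g * h) ∈ lcs G v.length := by
      have : (s (w v.length g * w v.length h))⁻¹ * (g * h) =
          ((s (w v.length h))⁻¹ * h) * (h⁻¹ * ((s (w v.length g))⁻¹ * g) * h) := by
        rw [map_mul]; group
      rw [this]
      exact mul_mem hy (hconj _ _ _ hx)
    change cF (w v.length (g * h)) v = _
    rw [key v.length (g * h) _ v le_rfl hxy, hmul]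
    refine Finset.sum_congr rfl fun i _ => ?_
    congr 1
    · exact (key v.length g _ (v.take i) (by rw [List.length_take]; omega) hx).symm
    · exact (key v.length h _ (v.drop i) (by rw [List.length_drop]; omega) hy).symm
  · intro g h hgh
    have : ∀ n, g⁻¹ * h ∈ lcs G n := fun n => (last n g h).2 fun v _ => hgh v trivial
    have h2 := hG.resNilpotent _ this
    exact (inv_mul_eq_one.mp h2)
  · intro g n
    obtain ⟨X0, hX0⟩ := hfin (w n g)
    refine ⟨X0, fun v hv hc x hx => ?_⟩
    refine hX0 v ?_ x hx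
    rw [← key n g (w n g) v hv (hw n g)]
    exact hc

end Pool.Agent.Helper34.PC
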